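import Pool.Agent.H261R3.LN.SStmts
import Pool.Agent.H808R3.LN.StageS1

/-! Task StageS2 of project LM (MP_e25190_gt), by helper772. -/

set_option autoImplicit false

namespace Pool.Agent.H772R3.LN

open Pool.Agent.H261R3.LH (Lip1 IsLNR clip clip_nonneg)
open Pool.Agent.H261R3.LN
open Pool.Agent.H744R3.LH (clip_le_one clip_of_mem abs_clip_sub lip_mono lip_nonneg lip_of_cells)
open Pool.Agent.H808R3.LN (sc dist_sc far_sc)

section
variable {S : Type} [MetricSpace S] {m : ℕ}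

lemma far1_sc {j : ℤ} {x : Fin m → ℝ} (h : Far (j + 1) (2 ^ (j + 1) / 100) x) :
    Far 1 (1 / 50) (sc j x) := by
  intro i n
  have h2 : (0 : ℝ) < 2 ^ j := by positivity
  have h1 := h i n
  have ez : (2 : ℝ) ^ (j + 1) = 2 ^ j * 2 := by
    rw [zpow_add₀ (by norm_num), zpow_one]
  have e : x i - 2 ^ (j + 1) * ((n : ℝ) + 1 / 6) =
      2 ^ j * (sc j x i - 2 ^ (1 : ℤ) * ((n : ℝ) + 1 / 6)) := by
    unfold sc
    rw [ez, zpow_one]
    field_simp
  rw [e, abs_mul, abs_of_pos h2] at h1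
  have h3 : (2 : ℝ) ^ j * (1 / 50) ≤ 2 ^ j * |sc j x i - 2 ^ (1 : ℤ) * ((n : ℝ) + 1 / 6)| := by
    calc (2 : ℝ) ^ j * (1 / 50) = 2 ^ (j + 1) / 100 := by rw [ez]; ring
      _ ≤ _ := h1
  exact le_of_mul_le_mul_left h3 h2

lemma far_up {j : ℤ} {u : Fin m → ℝ} (h : Far 0 (1 / 100) u) :
    Far j (2 ^ j / 100) (fun i => 2 ^ j * u i) := by
  intro i n
  have h2 : (0 : ℝ) < 2 ^ j := by positivity
  have h1 := h i n
  rw [zpow_zero, one_mul] at h1
  show (2 : ℝ) ^ j / 100 ≤ |2 ^ j * u i - 2 ^ j * ((n : ℝ) + 1 / 6)|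
  rw [← mul_sub, abs_mul, abs_of_pos h2]
  calc (2 : ℝ) ^ j / 100 = 2 ^ j * (1 / 100) := by ring
    _ ≤ _ := mul_le_mul_of_nonneg_left h1 h2.le

lemma far1_up {j : ℤ} {u : Fin m → ℝ} (h : Far 1 (1 / 50) u) :
    Far (j + 1) (2 ^ (j + 1) / 100) (fun i => 2 ^ j * u i) := by
  intro i n
  have h2 : (0 : ℝ) < 2 ^ j := by positivity
  have h1 := h i n
  rw [zpow_one] at h1
  have ez : (2 : ℝ) ^ (j + 1) = 2 ^ j * 2 := by
    rw [zpow_add₀ (by norm_num), zpow_one]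
  show (2 : ℝ) ^ (j + 1) / 100 ≤ |2 ^ j * u i - 2 ^ (j + 1) * ((n : ℝ) + 1 / 6)|
  rw [ez, show (2 : ℝ) ^ j * u i - 2 ^ j * 2 * ((n : ℝ) + 1 / 6) =
    2 ^ j * (u i - 2 * ((n : ℝ) + 1 / 6)) by ring, abs_mul, abs_of_pos h2]
  calc (2 : ℝ) ^ j * 2 / 100 = 2 ^ j * (1 / 50) := by ring
    _ ≤ _ := mul_le_mul_of_nonneg_left h1 h2.le

/-- the homotopy -/
noncomputable def hh (g : ℤ → ℝ → (Fin m → ℝ) → ℝ → S) (t : ℝ) (x : Fin m → ℝ) (η : ℝ) : S :=
  g ⌊η⌋ t (sc ⌊η⌋ x) (Int.fract η)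

end

theorem taskStageS2 : TaskStageS2 := by
  intro hSlab S _ p m hN C
  obtain ⟨C0, hC0, hsl⟩ := hSlab S p m hN C
  refine ⟨2 * C0, by positivity, fun F hF hp => ?_⟩
  obtain ⟨hF1, hF2⟩ := hF
  have hC : 0 ≤ C := lip_nonneg (hF2 (fun _ => 0))
  have c0 : clip 0 = 0 := clip_of_mem le_rfl zero_le_one
  have c1 : clip 1 = 1 := clip_of_mem zero_le_one le_rfl
  have hex : ∀ j : ℤ, ∃ g : ℝ → (Fin m → ℝ) → ℝ → S, (∀ t h, LipN C0 (fun x => g t x h)) ∧
        (∀ t x, Lip1 C0 (fun h => g t x h)) ∧ (∀ x h, Lip1 C0 (fun t => g t x h)) ∧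
        (∀ x h, 0 ≤ h → h ≤ 1 → g 0 x h = F (fun i => 2 ^ j * x i) (j + clip h)) ∧
        (∀ t x, g t x 0 = F (fun i => 2 ^ j * x i) (j + clip 0) ∧
          g t x 1 = F (fun i => 2 ^ j * x i) (j + clip 1)) ∧
        ∀ x h, 0 ≤ h → h ≤ 1 → Far 0 (1 / 100) x → Far 1 (1 / 50) x → g 1 x h = p := by
    intro j
    refine hsl (fun u h => F (fun i => 2 ^ j * u i) (j + clip h)) ?_ ?_ ?_ ?_
    · intro h u v
      have h2 : (0 : ℝ) < 2 ^ j := by positivity
      refine (hF1 (j + clip h) _ _).trans ?_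
      rw [mul_assoc]
      refine mul_le_mul_of_nonneg_left ?_ hC
      have h3 : dist (fun i => 2 ^ j * u i) (fun i => 2 ^ j * v i) ≤ 2 ^ j * dist u v := by
        rw [dist_pi_le_iff (by positivity)]
        intro i
        rw [Real.dist_eq, ← mul_sub, abs_mul, abs_of_pos h2, ← Real.dist_eq]
        exact mul_le_mul_of_nonneg_left (dist_le_pi_dist u v i) h2.le
      have h4 : (2 : ℝ) ^ (-((j : ℝ) + clip h)) ≤ ((2 : ℝ) ^ j)⁻¹ := by
        rw [← Real.rpow_intCast, ← Real.rpow_neg (by norm_num)]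
        refine Real.rpow_le_rpow_of_exponent_le (by norm_num) ?_
        have := clip_nonneg h
        linarith
      calc (2 : ℝ) ^ (-((j : ℝ) + clip h)) * dist (fun i => 2 ^ j * u i) (fun i => 2 ^ j * v i)
          ≤ ((2 : ℝ) ^ j)⁻¹ * (2 ^ j * dist u v) :=
            mul_le_mul h4 h3 dist_nonneg (by positivity)
        _ = dist u v := by rw [← mul_assoc, inv_mul_cancel₀ h2.ne', one_mul]
    · intro x a b
      refine (hF2 _ _ _).trans ?_
      refine mul_le_mul_of_nonneg_left ?_ hC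
      rw [add_sub_add_left_eq_sub]
      exact abs_clip_sub a b
    · intro x hx
      show F (fun i => 2 ^ j * x i) (j + clip 0) = p
      rw [c0, add_zero]
      exact hp j _ (far_up hx)
    · intro x hx
      show F (fun i => 2 ^ j * x i) (j + clip 1) = p
      rw [c1]
      have := hp (j + 1) _ (far1_up hx)
      push_cast at this
      exact this
  choose g g1 g2 g3 g4 g5 g6 using hex
  have hsc : ∀ (j : ℤ) (x : Fin m → ℝ), (fun i => 2 ^ j * sc j x i) = x := by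
    intro j x
    funext i
    have h2 : (2 : ℝ) ^ j ≠ 0 := by positivity
    show 2 ^ j * (x i / 2 ^ j) = x i
    field_simp
  have gz : ∀ (j : ℤ) (t : ℝ) (x : Fin m → ℝ), g j t (sc j x) 0 = F x j := by
    intro j t x
    rw [(g5 j t (sc j x)).1, hsc, c0, add_zero]
  have go : ∀ (j : ℤ) (t : ℝ) (x : Fin m → ℝ), g j t (sc j x) 1 = F x (j + 1) := by
    intro j t x
    rw [(g5 j t (sc j x)).2, hsc, c1]
  have cell : ∀ (k : ℤ) (t : ℝ) (x : Fin m → ℝ) (η : ℝ), (k : ℝ) ≤ η → η ≤ k + 1 →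
      hh g t x η = g k t (sc k x) (η - k) := by
    intro k t x η h0 h1
    rcases lt_or_eq_of_le h1 with h | h
    · have hf : ⌊η⌋ = k := Int.floor_eq_iff.2 ⟨h0, h⟩
      unfold hh Int.fract
      rw [hf]
    · have hf : ⌊η⌋ = k + 1 := by
        rw [Int.floor_eq_iff]; push_cast; constructor <;> linarith
      have e1 : Int.fract η = 0 := by
        unfold Int.fract; rw [hf, h]; push_cast; ring
      unfold hh
      rw [e1, hf, gz, show η - k = 1 by rw [h]; ring, go]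
      push_cast
      rfl
  refine ⟨hh g, fun t => ⟨fun η x x' => ?_, fun x => ?_⟩, fun x η => ?_, fun x η => ?_, ⟨?_, ?_⟩⟩
  · refine (g1 ⌊η⌋ t (Int.fract η) _ _).trans ?_
    have h1 : (2 : ℝ) ^ (-(⌊η⌋ : ℝ)) ≤ 2 * (2 : ℝ) ^ (-η) := by
      have e : 2 * (2 : ℝ) ^ (-η) = (2 : ℝ) ^ (1 - η) := by
        rw [sub_eq_add_neg, Real.rpow_add (by norm_num), Real.rpow_one]
      rw [e]
      refine Real.rpow_le_rpow_of_exponent_le (by norm_num) ?_
      have := Int.lt_floor_add_one η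
      linarith
    calc C0 * dist (sc ⌊η⌋ x) (sc ⌊η⌋ x') ≤ C0 * ((2 : ℝ) ^ (-(⌊η⌋ : ℝ)) * dist x x') :=
          mul_le_mul_of_nonneg_left (dist_sc _ x x') hC0
      _ ≤ C0 * ((2 * (2 : ℝ) ^ (-η)) * dist x x') :=
          mul_le_mul_of_nonneg_left (mul_le_mul_of_nonneg_right h1 dist_nonneg) hC0
      _ = 2 * C0 * (2 : ℝ) ^ (-η) * dist x x' := by ring
  · refine lip_of_cells fun k a b ha hab hb => ?_
    show dist (hh g t x a) (hh g t x b) ≤ _
    rw [cell k t x a ha (by linarith), cell k t x b (by linarith) hb]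
    refine (g2 k t (sc k x) _ _).trans ?_
    rw [show a - k - (b - k) = a - b by ring, abs_sub_comm, abs_of_nonneg (by linarith)]
    have : 0 ≤ C0 * (b - a) := mul_nonneg hC0 (by linarith)
    linarith
  · intro a b
    refine (g3 ⌊η⌋ (sc ⌊η⌋ x) (Int.fract η) a b).trans ?_
    have : 0 ≤ C0 * |a - b| := mul_nonneg hC0 (abs_nonneg _)
    linarith
  · have hf0 := Int.fract_nonneg η
    have hf1 := (Int.fract_lt_one η).le
    show g ⌊η⌋ 0 (sc ⌊η⌋ x) (Int.fract η) = F x η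
    rw [g4 _ _ _ hf0 hf1, hsc, clip_of_mem hf0 hf1, Int.floor_add_fract]
  · intro j x hx
    rw [cell j 1 x j le_rfl (by linarith), sub_self, gz]
    exact hp j x hx
  · intro j x η h0 h1 hx hx'
    rw [cell j 1 x η h0 h1]
    exact g6 j (sc j x) (η - j) (by linarith) (by linarith) (far_sc hx) (far1_sc hx')

end Pool.Agent.H772R3.LN
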